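import Pool.Agent.Y924.EL.Stm

/-!
# The evaluation relation of the next level
-/

set_option autoImplicit false

namespace Pool.Agent.Y562.EL

open Pool.Agent.Y924.EL

open scoped Classical

section

variable {K : Type}

/-- one step in the direction given by a bit -/
def St (J : K → K → K) (b : Bool) (x y : K) : Prop :=
  ∃ u, (b = false ∧ J y u = x) ∨ (b = true ∧ J u y = x)

theorem st_det {J : K → K → K} (hJ : Inj2 J) {b : Bool} {x y y' : K} (h : St J b x y)
    (h' : St J b x y') : y = y' := by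
  obtain ⟨u, h⟩ := h
  obtain ⟨u', h'⟩ := h'
  rcases h with ⟨hb, h⟩ | ⟨hb, h⟩ <;> rcases h' with ⟨hb', h'⟩ | ⟨hb', h'⟩
  · exact (hJ _ _ _ _ (h.trans h'.symm)).1
  · rw [hb] at hb'
    exact absurd hb' (by simp)
  · rw [hb] at hb'
    exact absurd hb' (by simp)
  · exact (hJ _ _ _ _ (h.trans h'.symm)).2

/-- walks -/
def Wk (J : K → K → K) : ℕ → (ℕ → Bool) → K → K → Prop
  | 0, _, s, v => s = v
  | k + 1, b, s, v => ∃ x, St J (b 0) s x ∧ Wk J k (fun n => b (n + 1)) x v

theorem wk_det {J : K → K → K} (hJ : Inj2 J) : ∀ (k : ℕ) (b : ℕ → Bool) (s v v' : K),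
    Wk J k b s v → Wk J k b s v' → v = v' := by
  intro k
  induction k with
  | zero =>
    intro b s v v' h h'
    exact h.symm.trans h'
  | succ k ih =>
    intro b s v v' h h'
    obtain ⟨x, hx, h⟩ := h
    obtain ⟨x', hx', h'⟩ := h'
    have := st_det hJ hx hx'
    subst this
    exact ih _ _ _ _ h h'

theorem wk_congr {J : K → K → K} : ∀ (k : ℕ) (b b' : ℕ → Bool) (s v : K),
    (∀ j, j < k → b j = b' j) → Wk J k b s v → Wk J k b' s v := by
  intro k
  induction k with
  | zero => intro b b' s v _ h; exact h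
  | succ k ih =>
    intro b b' s v hb h
    obtain ⟨x, hx, h⟩ := h
    refine ⟨x, ?_, ?_⟩
    · rw [← hb 0 (Nat.succ_pos k)]
      exact hx
    · exact ih _ _ x v (fun j hj => hb (j + 1) (by omega)) h

theorem wk_seq {J : K → K → K} : ∀ (k : ℕ) (b : ℕ → Bool) (s v : K),
    Wk J k b s v ↔ ∃ X : ℕ → K, X 0 = s ∧ X k = v ∧ ∀ j, j < k → St J (b j) (X j) (X (j + 1)) := by
  intro k
  induction k with
  | zero =>
    intro b s v
    constructor
    · intro h
      exact ⟨fun _ => s, rfl, h, fun j hj => absurd hj (Nat.not_lt_zero j)⟩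
    · rintro ⟨X, h0, h1, -⟩
      exact h0.symm.trans h1
  | succ k ih =>
    intro b s v
    constructor
    · rintro ⟨x, hx, h⟩
      obtain ⟨X, h0, h1, h2⟩ := (ih _ _ _).1 h
      refine ⟨fun n => Nat.casesOn n s X, rfl, h1, ?_⟩
      intro j hj
      cases j with
      | zero =>
        show St J (b 0) s (X 0)
        rw [h0]
        exact hx
      | succ j => exact h2 j (by omega)
    · rintro ⟨X, h0, h1, h2⟩
      refine ⟨X 1, ?_, ?_⟩
      · rw [← h0]
        exact h2 0 (Nat.succ_pos k)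
      · exact (ih _ _ _).2 ⟨fun n => X (n + 1), rfl, h1, fun j hj => h2 (j + 1) (by omega)⟩

theorem wk_comp {J : K → K → K} : ∀ (k : ℕ) (ψ : (Fin k → Bool) → K),
    ∃ s, ∀ b : ℕ → Bool, Wk J k b s (ψ fun i => b i) := by
  intro k
  induction k with
  | zero =>
    intro ψ
    refine ⟨ψ (fun i => i.elim0), fun b => ?_⟩
    show ψ _ = ψ _
    have : (fun i : Fin 0 => i.elim0) = (fun i : Fin 0 => b i) := by
      funext i
      exact i.elim0
    rw [this]
  | succ k ih =>
    intro ψ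
    obtain ⟨s0, h0⟩ := ih (fun c => ψ (Fin.cons false c))
    obtain ⟨s1, h1⟩ := ih (fun c => ψ (Fin.cons true c))
    refine ⟨J s0 s1, fun b => ?_⟩
    have hc : (Fin.cons (b 0) (fun i : Fin k => b ((i : ℕ) + 1)) : Fin (k + 1) → Bool) =
        fun i : Fin (k + 1) => b i := by
      funext i
      refine Fin.cases ?_ ?_ i
      · simp
      · intro j
        simp
    cases hb : b 0 with
    | false =>
      refine ⟨s0, ?_, ?_⟩
      · exact ⟨s1, Or.inl ⟨hb, rfl⟩⟩
      · have := h0 (fun n => b (n + 1))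
        rw [← hc, hb]
        exact this
    | true =>
      refine ⟨s1, ?_, ?_⟩
      · exact ⟨s0, Or.inr ⟨hb, rfl⟩⟩
      · have := h1 (fun n => b (n + 1))
        rw [← hc, hb]
        exact this

/-- the bit sequence with a given first bit -/
def cns (c : Bool) (b : ℕ → Bool) : ℕ → Bool := fun n => Nat.casesOn n c b

theorem wk_ext {J : K → K → K} (hJ : Inj2 J) : ∀ (k : ℕ) (s s' : K),
    (∀ b : ℕ → Bool, ∃ v, Wk J k b s v ∧ Wk J k b s' v) → s = s' := by
  intro k
  induction k with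
  | zero =>
    intro s s' h
    obtain ⟨v, h1, h2⟩ := h (fun _ => false)
    exact Eq.trans h1 (Eq.symm h2)
  | succ k ih =>
    intro s s' h
    have hh : ∀ c : Bool, ∃ x, St J c s x ∧ St J c s' x := by
      intro c
      obtain ⟨v, ⟨x, hx, -⟩, ⟨x', hx', -⟩⟩ := h (cns c (fun _ => false))
      have hx0 : St J c s x := hx
      have hx0' : St J c s' x' := hx'
      have he : x = x' := by
        apply ih
        intro b
        obtain ⟨v, ⟨y, hy, h1⟩, ⟨y', hy', h2⟩⟩ := h (cns c b)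
        have e1 : y = x := st_det hJ (show St J c s y from hy) hx0
        have e2 : y' = x' := st_det hJ (show St J c s' y' from hy') hx0'
        subst e1 e2
        exact ⟨v, h1, h2⟩
      subst he
      exact ⟨x, hx0, hx0'⟩
    obtain ⟨x, ⟨u, hu⟩, ⟨u', hu'⟩⟩ := hh false
    obtain ⟨y, ⟨w, hw⟩, ⟨w', hw'⟩⟩ := hh true
    simp only [true_and, reduceCtorEq, false_and, or_false, false_or] at hu hu' hw hw'
    have g1 := hJ _ _ _ _ (hu.trans hw.symm)
    have g2 := hJ _ _ _ _ (hu'.trans hw'.symm)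
    rw [← hu, ← hu', g1.2, g2.2]

/-! ### enumerations -/

variable {M : Lev K} {N : ℕ} {e : ℕ → K}

theorem en_D (he : Enum M N e) {k : ℕ} (hk : k < N) : M.D (e k) := (he.1 _).2 ⟨k, hk, rfl⟩

theorem en_inj (he : Enum M N e) {j k : ℕ} (hj : j < N) (hk : k < N) (h : e j = e k) : j = k := by
  rcases Nat.lt_trichotomy j k with h1 | h1 | h1
  · have h2 := (he.2 j k hj hk).2 h1
    rw [h] at h2
    exact absurd ((he.2 k k hk hk).1 h2) (lt_irrefl _)
  · exact h1
  · have h2 := (he.2 k j hk hj).2 h1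
    rw [h] at h2
    exact absurd ((he.2 k k hk hk).1 h2) (lt_irrefl _)

theorem fst_iff (he : Enum M N e) (hN : 1 ≤ N) (i : K) : Fst M i ↔ i = e 0 := by
  constructor
  · rintro ⟨h1, h2⟩
    obtain ⟨k, hk, rfl⟩ := (he.1 _).1 h1
    by_contra hne
    have hk0 : 0 < k := by
      rcases Nat.eq_zero_or_pos k with h | h
      · subst h
        exact absurd rfl hne
      · exact h
    exact h2 ⟨e 0, en_D he (by omega), (he.2 0 k (by omega) hk).2 hk0⟩
  · rintro rfl
    refine ⟨en_D he (by omega), ?_⟩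
    rintro ⟨j, hj, hl⟩
    obtain ⟨k, hk, rfl⟩ := (he.1 _).1 hj
    have := (he.2 k 0 hk (by omega)).1 hl
    omega

theorem lst_iff (he : Enum M N e) (hN : 1 ≤ N) (i : K) : Lst M i ↔ i = e (N - 1) := by
  constructor
  · rintro ⟨h1, h2⟩
    obtain ⟨k, hk, rfl⟩ := (he.1 _).1 h1
    by_contra hne
    have hk0 : k < N - 1 := by
      rcases Nat.lt_or_ge k (N - 1) with h | h
      · exact h
      · have : k = N - 1 := by omega
        subst this
        exact absurd rfl hne
    exact h2 ⟨e (N - 1), en_D he (by omega), (he.2 k (N - 1) hk (by omega)).2 hk0⟩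
  · rintro rfl
    refine ⟨en_D he (by omega), ?_⟩
    rintro ⟨j, hj, hl⟩
    obtain ⟨k, hk, rfl⟩ := (he.1 _).1 hj
    have := (he.2 (N - 1) k (by omega) hk).1 hl
    omega

theorem suc_iff (he : Enum M N e) (i j : K) :
    Suc M i j ↔ ∃ k, k + 1 < N ∧ i = e k ∧ j = e (k + 1) := by
  constructor
  · rintro ⟨h1, h2, h3, h4⟩
    obtain ⟨k, hk, rfl⟩ := (he.1 _).1 h1
    obtain ⟨l, hl, rfl⟩ := (he.1 _).1 h2
    have h5 := (he.2 k l hk hl).1 h3
    have h6 : l = k + 1 := by
      by_contra hne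
      have h7 : k + 1 < l := by omega
      exact h4 ⟨e (k + 1), en_D he (by omega), (he.2 k (k + 1) hk (by omega)).2 (by omega),
        (he.2 (k + 1) l (by omega) hl).2 h7⟩
    subst h6
    exact ⟨k, hl, rfl, rfl⟩
  · rintro ⟨k, hk, rfl, rfl⟩
    refine ⟨en_D he (by omega), en_D he hk, (he.2 k (k + 1) (by omega) hk).2 (by omega), ?_⟩
    rintro ⟨l, hl, h1, h2⟩
    obtain ⟨m, hm, rfl⟩ := (he.1 _).1 hl
    have h3 := (he.2 k m (by omega) hm).1 h1
    have h4 := (he.2 m (k + 1) hm hk).1 h2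
    omega

/-- functions given on the indices -/
theorem comp_ix (hM : Good M N) (he : Enum M N e) (X : ℕ → K) :
    ∃ w, ∀ j, j < N → M.E w (e j) (X j) := by
  obtain ⟨w, hw⟩ := hM.comp (fun y => if h : ∃ k, k < N ∧ y = e k then X h.choose else y)
  refine ⟨w, fun j hj => ?_⟩
  have h1 := hw (e j) (en_D he hj)
  have h2 : ∃ k, k < N ∧ e j = e k := ⟨j, hj, rfl⟩
  rw [dif_pos h2] at h1
  have h3 : h2.choose = j := (en_inj he hj h2.choose_spec.1 h2.choose_spec.2).symm
  rw [h3] at h1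
  exact h1

/-- the bits of an element -/
noncomputable def bt (M : Lev K) (z1 : K) (e : ℕ → K) (a : K) (j : ℕ) : Bool :=
  decide (M.E a (e j) z1)

variable {J : K → K → K} {z0 z1 : K}

theorem bt_true {a : K} {j : ℕ} : bt M z1 e a j = true ↔ M.E a (e j) z1 := by
  simp [bt]

theorem bt_false (hM : Good M N) (he : Enum M N e) (hz : z0 ≠ z1) {a : K}
    (ha : (nextLev M J z0 z1).D a) {j : ℕ} (hj : j < N) :
    bt M z1 e a j = false ↔ M.E a (e j) z0 := by
  rw [bt, decide_eq_false_iff_not]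
  constructor
  · intro h
    rcases ha (e j) (en_D he hj) with h1 | h1
    · exact h1
    · exact absurd h1 h
  · intro h h'
    exact hz (hM.func a (e j) z0 z1 (en_D he hj) h h')

theorem ch_iff (hM : Good M N) (he : Enum M N e) (hz : z0 ≠ z1) {a : K}
    (ha : (nextLev M J z0 z1).D a) {j : ℕ} (hj : j < N) (x y : K) :
    Ch M J z0 z1 a (e j) x y ↔ St J (bt M z1 e a j) x y := by
  unfold Ch St
  constructor
  · rintro ⟨u, ⟨h1, h2⟩ | ⟨h1, h2⟩⟩
    · exact ⟨u, Or.inl ⟨(bt_false hM he hz ha hj).2 h1, h2⟩⟩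
    · exact ⟨u, Or.inr ⟨bt_true.2 h1, h2⟩⟩
  · rintro ⟨u, ⟨h1, h2⟩ | ⟨h1, h2⟩⟩
    · exact ⟨u, Or.inl ⟨(bt_false hM he hz ha hj).1 h1, h2⟩⟩
    · exact ⟨u, Or.inr ⟨bt_true.1 h1, h2⟩⟩

/-- the evaluation relation of the next level -/
theorem key (hM : Good M N) (he : Enum M N e) (hN : 1 ≤ N) (hz : z0 ≠ z1) {a : K}
    (ha : (nextLev M J z0 z1).D a) (s v : K) :
    (nextLev M J z0 z1).E s a v ↔ Wk J N (bt M z1 e a) s v := by
  rw [wk_seq]
  constructor
  · rintro ⟨w, h1, h2, h3⟩
    have hF := h1 (e 0) ((fst_iff he hN _).2 rfl)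
    have hS : ∀ j, j + 1 < N → ∃ x y, M.E w (e j) x ∧ M.E w (e (j + 1)) y ∧
        St J (bt M z1 e a j) x y := by
      intro j hj
      obtain ⟨x, y, g1, g2, g3⟩ := h2 (e j) (e (j + 1)) ((suc_iff he _ _).2 ⟨j, hj, rfl, rfl⟩)
      exact ⟨x, y, g1, g2, (ch_iff hM he hz ha (by omega) x y).1 g3⟩
    obtain ⟨xl, hl1, hl2⟩ := h3 (e (N - 1)) ((lst_iff he hN _).2 rfl)
    have hl3 := (ch_iff hM he hz ha (by omega : N - 1 < N) xl v).1 hl2
    have hE : ∀ j, ∃ x, j < N → M.E w (e j) x := by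
      intro j
      by_cases hj : j + 1 < N
      · obtain ⟨x, y, g1, -, -⟩ := hS j hj
        exact ⟨x, fun _ => g1⟩
      · by_cases hj' : j < N
        · have : j = N - 1 := by omega
          subst this
          exact ⟨xl, fun _ => hl1⟩
        · exact ⟨s, fun h => absurd h hj'⟩
    choose x hx using hE
    refine ⟨fun j => if j < N then x j else v, ?_, ?_, ?_⟩
    · show (if 0 < N then x 0 else v) = s
      rw [if_pos (by omega)]
      exact hM.func w (e 0) _ _ (en_D he (by omega)) (hx 0 (by omega)) hF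
    · show (if N < N then x N else v) = v
      rw [if_neg (lt_irrefl _)]
    · intro j hj
      show St J (bt M z1 e a j) (if j < N then x j else v) (if j + 1 < N then x (j + 1) else v)
      rw [if_pos hj]
      by_cases hj1 : j + 1 < N
      · rw [if_pos hj1]
        obtain ⟨y, y', g1, g2, g3⟩ := hS j hj1
        have e1 : y = x j := hM.func w (e j) _ _ (en_D he hj) g1 (hx j hj)
        have e2 : y' = x (j + 1) := hM.func w (e (j + 1)) _ _ (en_D he hj1) g2 (hx (j + 1) hj1)
        rw [← e1, ← e2]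
        exact g3
      · rw [if_neg hj1]
        have hjN : j = N - 1 := by omega
        subst hjN
        have e1 : xl = x (N - 1) := hM.func w (e (N - 1)) _ _ (en_D he hj) hl1 (hx _ hj)
        rw [← e1]
        exact hl3
  · rintro ⟨X, h1, h2, h3⟩
    obtain ⟨w, hw⟩ := comp_ix hM he X
    refine ⟨w, ?_, ?_, ?_⟩
    · intro i hi
      rw [(fst_iff he hN i).1 hi, ← h1]
      exact hw 0 (by omega)
    · intro i j hij
      obtain ⟨k, hk, rfl, rfl⟩ := (suc_iff he _ _).1 hij
      exact ⟨X k, X (k + 1), hw k (by omega), hw (k + 1) hk,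
        (ch_iff hM he hz ha (by omega) _ _).2 (h3 k (by omega))⟩
    · intro i hi
      rw [(lst_iff he hN i).1 hi]
      refine ⟨X (N - 1), hw (N - 1) (by omega), ?_⟩
      refine (ch_iff hM he hz ha (by omega) _ _).2 ?_
      have h4 := h3 (N - 1) (by omega)
      have h5 : N - 1 + 1 = N := by omega
      rw [h5, h2] at h4
      exact h4

/-- elements with given bits -/
theorem ex_bits (hM : Good M N) (he : Enum M N e) (hz : z0 ≠ z1) (J : K → K → K) (b : ℕ → Bool) :
    ∃ a, (nextLev M J z0 z1).D a ∧ ∀ j, j < N → bt M z1 e a j = b j := by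
  obtain ⟨a, ha⟩ := comp_ix hM he (fun j => if b j = true then z1 else z0)
  have hD : (nextLev M J z0 z1).D a := by
    intro i hi
    obtain ⟨k, hk, rfl⟩ := (he.1 _).1 hi
    have h1 := ha k hk
    by_cases hb : b k = true
    · rw [if_pos hb] at h1
      exact Or.inr h1
    · rw [if_neg hb] at h1
      exact Or.inl h1
  refine ⟨a, hD, ?_⟩
  intro j hj
  have h1 := ha j hj
  by_cases hb : b j = true
  · rw [if_pos hb] at h1
    rw [hb]
    exact bt_true.2 h1
  · rw [if_neg hb] at h1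
    have hb' : b j = false := by simpa using hb
    rw [hb']
    exact (bt_false hM he hz hD hj).2 h1

theorem bits_inj (hM : Good M N) (he : Enum M N e) (hz : z0 ≠ z1) {a a' : K}
    (ha : (nextLev M J z0 z1).D a) (ha' : (nextLev M J z0 z1).D a')
    (h : ∀ j, j < N → bt M z1 e a j = bt M z1 e a' j) : a = a' := by
  apply hM.ext
  intro i hi
  obtain ⟨k, hk, rfl⟩ := (he.1 _).1 hi
  have h1 := h k hk
  cases hb : bt M z1 e a k with
  | false =>
    have h2 := hb
    rw [h1] at h2
    exact ⟨z0, (bt_false hM he hz ha hk).1 hb, (bt_false hM he hz ha' hk).1 h2⟩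
  | true =>
    have h2 := hb
    rw [h1] at h2
    exact ⟨z1, bt_true.1 hb, bt_true.1 h2⟩

end

theorem t_EVAL : S_EVAL := by
  intro K J z0 z1 M N hJ hz hN hM
  obtain ⟨e, he⟩ := hM.enum
  refine ⟨?_, ?_, ?_⟩
  · intro s a v v' ha h h'
    exact wk_det hJ N _ s v v' ((key hM he hN hz ha s v).1 h) ((key hM he hN hz ha s v').1 h')
  · intro φ
    have hex : ∀ c : Fin N → Bool, ∃ a, (nextLev M J z0 z1).D a ∧
        ∀ j : Fin N, bt M z1 e a j = c j := by
      intro c
      obtain ⟨a, h1, h2⟩ := ex_bits hM he hz J (fun j => if h : j < N then c ⟨j, h⟩ else false)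
      refine ⟨a, h1, fun j => ?_⟩
      rw [h2 j j.2, dif_pos j.2]
    choose el hel1 hel2 using hex
    obtain ⟨s, hs⟩ := wk_comp (J := J) N (fun c => φ (el c))
    refine ⟨s, fun a ha => ?_⟩
    rw [key hM he hN hz ha]
    have h1 := hs (bt M z1 e a)
    have h2 : el (fun i : Fin N => bt M z1 e a i) = a := by
      apply bits_inj hM he hz (J := J) (hel1 _) ha
      intro j hj
      exact hel2 (fun i : Fin N => bt M z1 e a i) ⟨j, hj⟩
    rw [h2] at h1
    exact h1
  · intro s s' h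
    apply wk_ext hJ N
    intro b
    obtain ⟨a, ha, hb⟩ := ex_bits hM he hz J b
    obtain ⟨v, h1, h2⟩ := h a ha
    exact ⟨v, wk_congr N _ _ s v hb ((key hM he hN hz ha s v).1 h1),
      wk_congr N _ _ s' v hb ((key hM he hN hz ha s' v).1 h2)⟩

end Pool.Agent.Y562.EL
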